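import Pool.Agent.Q176.AB.Def

/-! The annulus. -/

set_option autoImplicit false

open MeasureTheory Set Filter Topology Complex
open scoped ComplexConjugate

namespace Q176.AB

/-- the unit vector with the argument `θ` -/
noncomputable def ex (θ : ℝ) : ℂ := Complex.exp (θ * I)

theorem ex_add (s t : ℝ) : ex (s + t) = ex s * ex t := by
  rw [ex, ex, ex, ← Complex.exp_add]; congr 1; push_cast; ring

theorem ex_zero : ex 0 = 1 := by simp [ex]

theorem norm_ex (θ : ℝ) : ‖ex θ‖ = 1 := Complex.norm_exp_ofReal_mul_I θ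

theorem ex_ne (θ : ℝ) : ex θ ≠ 0 := Complex.exp_ne_zero _

theorem ex_eq (θ : ℝ) : ex θ = Real.cos θ + Real.sin θ * I := by
  rw [ex, Complex.exp_mul_I]; push_cast; ring

theorem ex_eq_iff {s t : ℝ} : ex s = ex t ↔ ∃ m : ℤ, s = t + m * (2 * Real.pi) := by
  rw [ex, ex, Complex.exp_eq_exp_iff_exists_int]
  constructor
  · rintro ⟨m, hm⟩
    refine ⟨m, ?_⟩
    have h1 : (s : ℂ) * I = ((t + m * (2 * Real.pi) : ℝ) : ℂ) * I := by
      rw [hm]; push_cast; ring
    have h2 := mul_right_cancel₀ I_ne_zero h1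
    exact_mod_cast h2
  · rintro ⟨m, rfl⟩
    refine ⟨m, ?_⟩
    push_cast; ring

theorem ex_smooth : ContDiff ℝ (⊤ : ℕ∞) ex := by
  have h1 : ContDiff ℝ (⊤ : ℕ∞) fun θ : ℝ => (θ : ℂ) * I :=
    (Complex.ofRealCLM.contDiff).mul contDiff_const
  exact h1.cexp

theorem ex_deriv (θ : ℝ) : HasDerivAt ex (I * ex θ) θ := by
  have h1 : HasDerivAt (fun θ : ℝ => (θ : ℂ) * I) (1 * I) θ :=
    (Complex.ofRealCLM.hasDerivAt (x := θ)).mul_const I
  have h2 := h1.cexp
  rw [one_mul, mul_comm] at h2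
  exact h2

/-- the annulus -/
def ann : Set ℂ := {z | 1 ≤ ‖z‖ ∧ ‖z‖ ≤ 2}

/-- the boundary circles -/
noncomputable def cc (i : Fin 2) (s : ℝ) : ℂ := if i = 0 then 2 * ex (s / 2) else ex (-s)

noncomputable def LL (i : Fin 2) : ℝ := if i = 0 then 4 * Real.pi else 2 * Real.pi

theorem cc0 (s : ℝ) : cc 0 s = 2 * ex (s / 2) := rfl

theorem cc1 (s : ℝ) : cc 1 s = ex (-s) := rfl

theorem dcc0 (s : ℝ) : deriv (cc 0) s = I * ex (s / 2) := by
  have h1 : HasDerivAt (fun s : ℝ => s / 2) (1 / 2) s := (hasDerivAt_id s).div_const 2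
  have h2 := (((ex_deriv (s / 2)).scomp s h1).const_mul (2 : ℂ))
  have h3 : HasDerivAt (cc 0) (2 * ((1 / 2 : ℝ) • (I * ex (s / 2)))) s := h2
  rw [h3.deriv, Complex.real_smul]
  push_cast; ring

theorem dcc1 (s : ℝ) : deriv (cc 1) s = -(I * ex (-s)) := by
  have h1 : HasDerivAt (fun s : ℝ => -s) (-1) s := (hasDerivAt_id s).neg
  have h2 := (ex_deriv (-s)).scomp s h1
  have h3 : HasDerivAt (cc 1) ((-1 : ℝ) • (I * ex (-s))) s := h2
  rw [h3.deriv, Complex.real_smul]
  push_cast; ring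

theorem ann_eq : ann = Metric.closedBall 0 2 ∩ (Metric.ball 0 1)ᶜ := by
  ext z
  simp only [ann, mem_setOf_eq, mem_inter_iff, Metric.mem_closedBall, dist_zero_right, mem_compl_iff,
    Metric.mem_ball, not_lt]
  tauto

theorem interior_ann : interior ann = {z | 1 < ‖z‖ ∧ ‖z‖ < 2} := by
  rw [ann_eq, interior_inter, interior_closedBall _ (by norm_num), interior_compl,
    closure_ball _ (by norm_num)]
  ext z
  simp only [mem_setOf_eq, mem_inter_iff, Metric.mem_closedBall, dist_zero_right, mem_compl_iff,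
    Metric.mem_ball, not_le]
  tauto

theorem closed_ann : IsClosed ann := by
  rw [ann_eq]
  exact Metric.isClosed_closedBall.inter Metric.isOpen_ball.isClosed_compl

theorem polar (z : ℂ) : z = ‖z‖ * ex (Complex.arg z) := (Complex.norm_mul_exp_arg_mul_I z).symm

theorem norm_cc0 (s : ℝ) : ‖cc 0 s‖ = 2 := by rw [cc0, norm_mul, norm_ex]; simp

theorem norm_cc1 (s : ℝ) : ‖cc 1 s‖ = 1 := by rw [cc1, norm_ex]

theorem mem_int {z : ℂ} : z ∈ interior ann ↔ 1 < ‖z‖ ∧ ‖z‖ < 2 := by rw [interior_ann]; rfl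

theorem norm_re (r θ : ℝ) (hr : 0 ≤ r) : ‖(r : ℂ) * ex θ‖ = r := by
  rw [norm_mul, norm_ex, mul_one, Complex.norm_real, Real.norm_eq_abs, abs_of_nonneg hr]

theorem closure_int_ann : closure (interior ann) = ann := by
  refine Subset.antisymm (closure_minimal interior_subset closed_ann) fun z hz => ?_
  have h1 : ‖z‖ ∈ closure (Ioo (1 : ℝ) 2) := by rw [closure_Ioo (by norm_num)]; exact hz
  have h2 : Continuous fun r : ℝ => (r : ℂ) * ex (Complex.arg z) := by fun_prop
  have h3 := map_mem_closure h2 h1 (t := interior ann) fun r hr => by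
    rw [mem_int, norm_re _ _ (by linarith [hr.1])]
    exact hr
  simp only [← polar z] at h3
  exact h3

theorem connected_ann : IsConnected (interior ann) := by
  have h1 : interior ann = (fun p : ℝ × ℝ => (p.1 : ℂ) * ex p.2) '' (Ioo (1 : ℝ) 2 ×ˢ univ) := by
    ext z
    rw [mem_int]
    constructor
    · intro hz
      exact ⟨(‖z‖, Complex.arg z), ⟨hz, mem_univ _⟩, (polar z).symm⟩
    · rintro ⟨⟨r, θ⟩, ⟨hr, _⟩, rfl⟩
      show 1 < ‖(r : ℂ) * ex θ‖ ∧ ‖(r : ℂ) * ex θ‖ < 2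
      rw [norm_re _ _ (by linarith [hr.1])]
      exact hr
  rw [h1]
  refine ((isConnected_Ioo (by norm_num)).prod isConnected_univ).image _ ?_
  have h2 : Continuous ex := ex_smooth.continuous
  exact (by fun_prop : Continuous fun p : ℝ × ℝ => (p.1 : ℂ) * ex p.2).continuousOn

theorem frontier_ann : frontier ann = ⋃ i, range (cc i) := by
  rw [frontier, closed_ann.closure_eq]
  ext z
  rw [mem_diff, mem_int, mem_iUnion]
  constructor
  · rintro ⟨⟨h1, h2⟩, h3⟩
    rcases eq_or_lt_of_le h1 with h | h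
    · refine ⟨1, -Complex.arg z, ?_⟩
      rw [cc1, neg_neg]
      conv_rhs => rw [polar z, ← h]
      simp
    · have h4 : ‖z‖ = 2 := le_antisymm h2 (not_lt.1 fun h5 => h3 ⟨h, h5⟩)
      refine ⟨0, 2 * Complex.arg z, ?_⟩
      rw [cc0, mul_div_cancel_left₀ _ (two_ne_zero)]
      conv_rhs => rw [polar z, h4]
      simp
  · rintro ⟨i, s, rfl⟩
    fin_cases i
    · show (1 ≤ ‖cc 0 s‖ ∧ ‖cc 0 s‖ ≤ 2) ∧ ¬ (1 < ‖cc 0 s‖ ∧ ‖cc 0 s‖ < 2)
      rw [norm_cc0]; norm_num
    · show (1 ≤ ‖cc 1 s‖ ∧ ‖cc 1 s‖ ≤ 2) ∧ ¬ (1 < ‖cc 1 s‖ ∧ ‖cc 1 s‖ < 2)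
      rw [norm_cc1]; norm_num

/-- the annulus as a billiard table -/
noncomputable def B : Table where
  Q := ann
  n := 2
  L := LL
  c := cc
  compact := (isCompact_closedBall (0 : ℂ) 2).of_isClosed_subset closed_ann fun z hz => by
    simpa using hz.2
  closure_interior := closure_int_ann
  connected := connected_ann
  frontier_eq := frontier_ann
  L_pos := fun i => by
    have := Real.pi_pos
    rw [LL]; split_ifs <;> positivity
  smooth := fun i => by
    fin_cases i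
    · exact contDiff_const.mul (ex_smooth.comp (contDiff_id.div_const 2))
    · exact ex_smooth.comp contDiff_neg
  unit_speed := fun i s => by
    fin_cases i
    · show ‖deriv (cc 0) s‖ = 1
      rw [dcc0, norm_mul, norm_ex, norm_I, one_mul]
    · show ‖deriv (cc 1) s‖ = 1
      rw [dcc1, norm_neg, norm_mul, norm_ex, norm_I, one_mul]
  period := fun i s => by
    fin_cases i
    · show 2 * ex ((s + 4 * Real.pi) / 2) = 2 * ex (s / 2)
      congr 1
      rw [ex_eq_iff]
      exact ⟨1, by push_cast; ring⟩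
    · show ex (-(s + 2 * Real.pi)) = ex (-s)
      rw [ex_eq_iff]
      exact ⟨-1, by push_cast; ring⟩
  simple := fun i j s t h => by
    fin_cases i <;> fin_cases j
    · refine ⟨rfl, ?_⟩
      have h1 : 2 * ex (s / 2) = 2 * ex (t / 2) := h
      obtain ⟨m, hm⟩ := ex_eq_iff.1 (mul_left_cancel₀ two_ne_zero h1)
      refine ⟨m, ?_⟩
      show s = t + m * (4 * Real.pi)
      linarith
    · exfalso
      have h1 : ‖cc 0 s‖ = ‖cc 1 t‖ := congrArg norm h
      rw [norm_cc0, norm_cc1] at h1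
      norm_num at h1
    · exfalso
      have h1 : ‖cc 1 s‖ = ‖cc 0 t‖ := congrArg norm h
      rw [norm_cc0, norm_cc1] at h1
      norm_num at h1
    · refine ⟨rfl, ?_⟩
      have h1 : ex (-s) = ex (-t) := h
      obtain ⟨m, hm⟩ := ex_eq_iff.1 h1
      refine ⟨-m, ?_⟩
      show s = t + ((-m : ℤ) : ℝ) * (2 * Real.pi)
      push_cast
      linarith
  inward := fun i s => by
    have h0 : ∀ᶠ t : ℝ in 𝓝[>] 0, t ∈ Ioo (0 : ℝ) 1 := Ioo_mem_nhdsGT one_pos
    filter_upwards [h0] with t ht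
    fin_cases i
    · show cc 0 s + t * (I * deriv (cc 0) s) ∈ interior ann
      have h1 : cc 0 s + t * (I * deriv (cc 0) s) = ((2 - t : ℝ) : ℂ) * ex (s / 2) := by
        rw [dcc0, cc0, ← mul_assoc I I, I_mul_I]; push_cast; ring
      rw [h1, mem_int, norm_re _ _ (by linarith [ht.2])]
      constructor <;> linarith [ht.1, ht.2]
    · show cc 1 s + t * (I * deriv (cc 1) s) ∈ interior ann
      have h1 : cc 1 s + t * (I * deriv (cc 1) s) = ((1 + t : ℝ) : ℂ) * ex (-s) := by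
        rw [dcc1, cc1, mul_neg, ← mul_assoc I I, I_mul_I]; push_cast; ring
      rw [h1, mem_int, norm_re _ _ (by linarith [ht.1])]
      constructor <;> linarith [ht.1, ht.2]

end Q176.AB
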