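import Pool.Agent.Q176.AB.A1

/-! The billiard map of the annulus and its derivative. -/

set_option autoImplicit false

open MeasureTheory Set Filter Topology Complex

namespace Q176.AB

theorem pt0 (s φ : ℝ) : B.pt (0 : Fin 2) s φ = (2 * ex (s / 2), -ex (s / 2 - φ)) := by
  show (cc 0 s, (Real.sin φ + Real.cos φ * I) * deriv (cc 0) s) = _
  rw [dcc0, cc0, sub_eq_add_neg, ex_add, ex_eq (-φ), Real.cos_neg, Real.sin_neg]
  refine Prod.ext rfl ?_
  show (Real.sin φ + Real.cos φ * I) * (I * ex (s / 2)) = _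
  push_cast
  linear_combination (Complex.cos φ * ex (s / 2)) * I_mul_I

theorem pt1 (s φ : ℝ) : B.pt (1 : Fin 2) s φ = (ex (-s), ex (-s - φ)) := by
  show (cc 1 s, (Real.sin φ + Real.cos φ * I) * deriv (cc 1) s) = _
  rw [dcc1, cc1, sub_eq_add_neg, ex_add, ex_eq (-φ), Real.cos_neg, Real.sin_neg]
  refine Prod.ext rfl ?_
  show (Real.sin φ + Real.cos φ * I) * (-(I * ex (-s))) = _
  push_cast
  linear_combination (-(Complex.cos φ * ex (-s))) * I_mul_I

theorem in0 (s φ : ℝ) : (Real.sin φ - Real.cos φ * I) * deriv (cc 0) s = ex (s / 2 + φ) := by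
  rw [dcc0, ex_add, ex_eq φ]
  push_cast
  linear_combination (-(Complex.cos φ * ex (s / 2))) * I_mul_I

theorem in1 (s φ : ℝ) : (Real.sin φ - Real.cos φ * I) * deriv (cc 1) s = -ex (-s + φ) := by
  rw [dcc1, ex_add, ex_eq φ]
  push_cast
  linear_combination (Complex.cos φ * ex (-s)) * I_mul_I

theorem cos_pos_of_angle {φ : ℝ} (h : φ ∈ Angle) : 0 < Real.cos φ := Real.cos_pos_of_mem_Ioo h

theorem norm_sq_ex (φ t : ℝ) : ‖ex φ + t‖ ^ 2 = 1 + 2 * t * Real.cos φ + t ^ 2 := by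
  have h1 : ex φ + t = ((Real.cos φ + t : ℝ) : ℂ) + (Real.sin φ : ℝ) * I := by
    rw [ex_eq]; push_cast; ring
  rw [← Complex.normSq_eq_norm_sq, h1, Complex.normSq_add_mul_I]
  have := Real.sin_sq_add_cos_sq φ
  nlinarith

/-- from the outer circle to the inner circle -/
theorem step01 {s φ φ' : ℝ} (h : φ ∈ Angle) (h' : φ' ∈ Angle)
    (hs : Real.sin φ' = -(2 * Real.sin φ)) :
    B.Step (B.pt (0 : Fin 2) s φ) (B.pt (1 : Fin 2) (-s / 2 + φ + φ') φ') := by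
  have hc := cos_pos_of_angle h
  have hc' := cos_pos_of_angle h'
  have e1 := Real.sin_sq_add_cos_sq φ
  have e2 := Real.sin_sq_add_cos_sq φ'
  rw [hs] at e2
  have e3 : 4 * Real.cos φ ^ 2 = 3 + Real.cos φ' ^ 2 := by nlinarith
  set τ := 2 * Real.cos φ - Real.cos φ' with hτ
  have hτ0 : 0 < τ := by
    by_contra hcon
    have : 2 * Real.cos φ ≤ Real.cos φ' := by linarith
    nlinarith
  refine ⟨(0 : Fin 2), s, φ, (1 : Fin 2), _, φ', h, h', rfl, rfl, τ, hτ0, ?_, ?_, ?_⟩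
  · rw [pt0, pt1]
    show ex (-(-s / 2 + φ + φ')) = 2 * ex (s / 2) + τ * (-ex (s / 2 - φ))
    have h1 : -(-s / 2 + φ + φ') = (s / 2 - φ) + (-φ') := by ring
    have h2 : s / 2 = (s / 2 - φ) + φ := by ring
    rw [h1, ex_add]
    conv_rhs => rw [h2, ex_add, ← h2]
    rw [ex_eq φ, ex_eq (-φ'), Real.cos_neg, Real.sin_neg, hs, hτ]
    push_cast
    ring
  · intro t ht
    rw [pt0]
    show 2 * ex (s / 2) + t * (-ex (s / 2 - φ)) ∈ interior ann
    have h1 : 2 * ex (s / 2) + t * (-ex (s / 2 - φ))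
        = 2 * (ex (s / 2 - φ) * (ex φ + ((-t / 2 : ℝ) : ℂ))) := by
      have h2 : ex (s / 2) = ex (s / 2 - φ) * ex φ := by rw [← ex_add]; congr 1; ring
      rw [h2]; push_cast; ring
    rw [h1, mem_int, norm_mul, norm_mul, norm_ex, one_mul, Complex.norm_ofNat]
    have h3 := norm_sq_ex φ (-t / 2)
    set r := ‖ex φ + ((-t / 2 : ℝ) : ℂ)‖ with hr
    have hr0 : 0 ≤ r := norm_nonneg _
    have h4 : 4 * r ^ 2 = 4 - 4 * t * Real.cos φ + t ^ 2 := by rw [h3]; ring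
    have h5 : 4 - 4 * t * Real.cos φ + t ^ 2 - 1
        = (t - τ) * (t - (2 * Real.cos φ + Real.cos φ')) := by
      rw [hτ]; nlinarith
    have h6 : 0 < (t - τ) * (t - (2 * Real.cos φ + Real.cos φ')) :=
      mul_pos_of_neg_of_neg (by linarith [ht.2]) (by
        have := ht.2
        rw [hτ] at this
        linarith)
    constructor
    · nlinarith
    · have h7 : t * (t - 4 * Real.cos φ) < 0 :=
        mul_neg_of_pos_of_neg ht.1 (by
          have := ht.2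
          rw [hτ] at this
          linarith)
      nlinarith
  · rw [pt0]
    show -ex (s / 2 - φ) = (Real.sin φ' - Real.cos φ' * I) * deriv (cc 1) (-s / 2 + φ + φ')
    rw [in1]
    congr 2
    ring

/-- from the inner circle to the outer circle -/
theorem step10 {s φ φ' : ℝ} (h : φ ∈ Angle) (h' : φ' ∈ Angle)
    (hs : Real.sin φ' = -(Real.sin φ / 2)) :
    B.Step (B.pt (1 : Fin 2) s φ) (B.pt (0 : Fin 2) (-2 * s - 2 * φ - 2 * φ') φ') := by
  have hc := cos_pos_of_angle h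
  have hc' := cos_pos_of_angle h'
  have e1 := Real.sin_sq_add_cos_sq φ
  have e2 := Real.sin_sq_add_cos_sq φ'
  rw [hs] at e2
  have e3 : 4 * Real.cos φ' ^ 2 = 3 + Real.cos φ ^ 2 := by nlinarith
  set τ := 2 * Real.cos φ' - Real.cos φ with hτ
  have hτ0 : 0 < τ := by
    by_contra hcon
    have : 2 * Real.cos φ' ≤ Real.cos φ := by linarith
    nlinarith
  refine ⟨(1 : Fin 2), s, φ, (0 : Fin 2), _, φ', h, h', rfl, rfl, τ, hτ0, ?_, ?_, ?_⟩
  · rw [pt0, pt1]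
    show 2 * ex ((-2 * s - 2 * φ - 2 * φ') / 2) = ex (-s) + τ * ex (-s - φ)
    have h1 : (-2 * s - 2 * φ - 2 * φ') / 2 = (-s - φ) + (-φ') := by ring
    have h2 : -s = (-s - φ) + φ := by ring
    rw [h1, ex_add]
    conv_rhs => rw [h2, ex_add, ← h2]
    rw [ex_eq φ, ex_eq (-φ'), Real.cos_neg, Real.sin_neg, hs, hτ]
    push_cast
    ring
  · intro t ht
    rw [pt1]
    show ex (-s) + t * ex (-s - φ) ∈ interior ann
    have h1 : ex (-s) + t * ex (-s - φ) = ex (-s - φ) * (ex φ + t) := by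
      have h2 : ex (-s) = ex (-s - φ) * ex φ := by rw [← ex_add]; congr 1; ring
      rw [h2]; ring
    rw [h1, mem_int, norm_mul, norm_ex, one_mul]
    have h3 := norm_sq_ex φ t
    set r := ‖ex φ + (t : ℂ)‖ with hr
    have hr0 : 0 ≤ r := norm_nonneg _
    have h5 : 1 + 2 * t * Real.cos φ + t ^ 2 - 4
        = (t - τ) * (t + (2 * Real.cos φ' + Real.cos φ)) := by
      rw [hτ]; nlinarith
    have h6 : (t - τ) * (t + (2 * Real.cos φ' + Real.cos φ)) < 0 :=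
      mul_neg_of_neg_of_pos (by linarith [ht.2]) (by linarith [ht.1])
    have h7 : 0 < t * Real.cos φ := mul_pos ht.1 hc
    constructor
    · nlinarith [ht.1]
    · nlinarith
  · rw [pt1]
    show ex (-s - φ) = (Real.sin φ' - Real.cos φ' * I) * deriv (cc 0) (-2 * s - 2 * φ - 2 * φ')
    rw [in0]
    congr 1
    ring

theorem angle_open : IsOpen Angle := isOpen_Ioo

theorem arcsin_angle {x : ℝ} (h : |x| < 1) : Real.arcsin x ∈ Angle := by
  rw [abs_lt] at h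
  exact ⟨Real.neg_pi_div_two_lt_arcsin.2 h.1, Real.arcsin_lt_pi_div_two.2 h.2⟩

theorem neg_angle {x : ℝ} (h : x ∈ Angle) : -x ∈ Angle := ⟨by linarith [h.2], by linarith [h.1]⟩

theorem arcsin_deriv {g : ℝ → ℝ} {g' x : ℝ} (hg : HasDerivAt g g' x) (h : |g x| < 1) :
    HasDerivAt (fun y => Real.arcsin (g y)) (1 / √(1 - g x ^ 2) * g') x := by
  rw [abs_lt] at h
  exact (Real.hasDerivAt_arcsin (by
    intro hh; linarith [h.1]) (by intro hh; linarith [h.2])).comp x hg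

/-- the derivative at the points of the outer circle -/
theorem hasD0 {s φ : ℝ} (h : φ ∈ Angle) (hφ : |2 * Real.sin φ| < 1) :
    ∃ A, B.HasD (B.pt (0 : Fin 2) s φ) A ∧
      2 * Real.cos φ / √(1 - (2 * Real.sin φ) ^ 2) ≤ ‖A‖ := by
  set D := 1 / √(1 - (2 * Real.sin φ) ^ 2) * (2 * Real.cos φ) with hD
  have hg : HasDerivAt (fun x => 2 * Real.sin x) (2 * Real.cos φ) φ :=
    (Real.hasDerivAt_sin φ).const_mul 2
  have h1 : HasDerivAt (fun x => Real.arcsin (2 * Real.sin x)) D φ := arcsin_deriv hg hφ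
  have h2 : HasFDerivAt (fun r : ℝ × ℝ => Real.arcsin (2 * Real.sin r.2))
      (D • ContinuousLinearMap.snd ℝ ℝ ℝ) (s, φ) :=
    HasDerivAt.comp_hasFDerivAt (s, φ) (h₂ := fun x => Real.arcsin (2 * Real.sin x)) h1
      (hasFDerivAt_snd (𝕜 := ℝ) (p := ((s, φ) : ℝ × ℝ)))
  set P := ContinuousLinearMap.fst ℝ ℝ ℝ
  set R := ContinuousLinearMap.snd ℝ ℝ ℝ
  have hP : HasFDerivAt (fun r : ℝ × ℝ => r.1) P (s, φ) := hasFDerivAt_fst
  have hR : HasFDerivAt (fun r : ℝ × ℝ => r.2) R (s, φ) := hasFDerivAt_snd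
  set A : ℝ × ℝ →L[ℝ] ℝ × ℝ := (((-1 / 2 : ℝ) • P + R) + -(D • R)).prod (-(D • R)) with hA
  have h3 : HasFDerivAt (fun r : ℝ × ℝ => ((-1 / 2 * r.1 + r.2 + -Real.arcsin (2 * Real.sin r.2),
      -Real.arcsin (2 * Real.sin r.2)) : ℝ × ℝ)) A (s, φ) :=
    (((hP.const_mul (-1 / 2)).add hR).add h2.neg).prodMk h2.neg
  refine ⟨A, ⟨(0 : Fin 2), (1 : Fin 2), (s, φ), fun r => (-1 / 2 * r.1 + r.2
      + -Real.arcsin (2 * Real.sin r.2), -Real.arcsin (2 * Real.sin r.2)), h,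
      neg_angle (arcsin_angle hφ), rfl, ?_, h3⟩, ?_⟩
  · have c1 : ∀ᶠ r : ℝ × ℝ in 𝓝 (s, φ), r.2 ∈ Angle :=
      continuous_snd.continuousAt.eventually (angle_open.mem_nhds h)
    have c2 : ∀ᶠ r : ℝ × ℝ in 𝓝 (s, φ), |2 * Real.sin r.2| < 1 :=
      (by fun_prop : Continuous fun r : ℝ × ℝ => |2 * Real.sin r.2|).continuousAt.eventually_lt
        continuousAt_const hφ
    filter_upwards [c1, c2] with r hr1 hr2
    have hr3 := abs_lt.1 hr2
    have := step01 (s := r.1) hr1 (neg_angle (arcsin_angle hr2)) (by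
      rw [Real.sin_neg, Real.sin_arcsin hr3.1.le hr3.2.le])
    have e : -1 / 2 * r.1 + r.2 + -Real.arcsin (2 * Real.sin r.2)
        = -r.1 / 2 + r.2 + -Real.arcsin (2 * Real.sin r.2) := by ring
    show B.Step (B.pt (0 : Fin 2) r.1 r.2) (B.pt (1 : Fin 2)
      (-1 / 2 * r.1 + r.2 + -Real.arcsin (2 * Real.sin r.2)) (-Real.arcsin (2 * Real.sin r.2)))
    rw [e]
    exact this
  · have h4 : ‖A (0, 1)‖ ≤ ‖A‖ * ‖((0, 1) : ℝ × ℝ)‖ := A.le_opNorm _
    have h5 : ‖((0, 1) : ℝ × ℝ)‖ = 1 := by simp [Prod.norm_def]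
    rw [h5, mul_one] at h4
    refine le_trans ?_ h4
    have h6 : (A (0, 1)).2 = -D := by simp [hA, R]
    have h7 : ‖(A (0, 1)).2‖ ≤ ‖A (0, 1)‖ := norm_snd_le _
    rw [h6, norm_neg, Real.norm_eq_abs] at h7
    refine le_trans ?_ h7
    refine le_trans (le_of_eq ?_) (le_abs_self D)
    rw [hD]; ring

/-- the derivative at the points of the inner circle -/
theorem hasD1 {s φ : ℝ} (h : φ ∈ Angle) : ∃ A, B.HasD (B.pt (1 : Fin 2) s φ) A := by
  have hlt : ∀ x : ℝ, |Real.sin x / 2| < 1 := by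
    intro x
    rw [abs_div, abs_two]
    have := Real.abs_sin_le_one x
    linarith
  set D := 1 / √(1 - (Real.sin φ / 2) ^ 2) * (Real.cos φ / 2) with hD
  have hg : HasDerivAt (fun x => Real.sin x / 2) (Real.cos φ / 2) φ :=
    (Real.hasDerivAt_sin φ).div_const 2
  have h1 : HasDerivAt (fun x => Real.arcsin (Real.sin x / 2)) D φ := arcsin_deriv hg (hlt φ)
  have h2 : HasFDerivAt (fun r : ℝ × ℝ => Real.arcsin (Real.sin r.2 / 2))
      (D • ContinuousLinearMap.snd ℝ ℝ ℝ) (s, φ) :=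
    HasDerivAt.comp_hasFDerivAt (s, φ) (h₂ := fun x => Real.arcsin (Real.sin x / 2)) h1
      (hasFDerivAt_snd (𝕜 := ℝ) (p := ((s, φ) : ℝ × ℝ)))
  set P := ContinuousLinearMap.fst ℝ ℝ ℝ
  set R := ContinuousLinearMap.snd ℝ ℝ ℝ
  have hP : HasFDerivAt (fun r : ℝ × ℝ => r.1) P (s, φ) := hasFDerivAt_fst
  have hR : HasFDerivAt (fun r : ℝ × ℝ => r.2) R (s, φ) := hasFDerivAt_snd
  have h3 : HasFDerivAt (fun r : ℝ × ℝ => ((-2 * r.1 + -2 * r.2 + -2 * -Real.arcsin (Real.sin r.2 / 2),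
      -Real.arcsin (Real.sin r.2 / 2)) : ℝ × ℝ))
      ((((-2 : ℝ) • P + (-2 : ℝ) • R) + (-2 : ℝ) • -(D • R)).prod (-(D • R))) (s, φ) :=
    (((hP.const_mul (-2)).add (hR.const_mul (-2))).add (h2.neg.const_mul (-2))).prodMk h2.neg
  refine ⟨_, (1 : Fin 2), (0 : Fin 2), (s, φ), fun r => (-2 * r.1 + -2 * r.2
      + -2 * -Real.arcsin (Real.sin r.2 / 2), -Real.arcsin (Real.sin r.2 / 2)), h,
      neg_angle (arcsin_angle (hlt φ)), rfl, ?_, h3⟩
  have c1 : ∀ᶠ r : ℝ × ℝ in 𝓝 (s, φ), r.2 ∈ Angle :=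
    continuous_snd.continuousAt.eventually (angle_open.mem_nhds h)
  filter_upwards [c1] with r hr1
  have hr3 := abs_lt.1 (hlt r.2)
  have := step10 (s := r.1) hr1 (neg_angle (arcsin_angle (hlt r.2))) (by
    rw [Real.sin_neg, Real.sin_arcsin hr3.1.le hr3.2.le])
  have e : -2 * r.1 + -2 * r.2 + -2 * -Real.arcsin (Real.sin r.2 / 2)
      = -2 * r.1 - 2 * r.2 - 2 * -Real.arcsin (Real.sin r.2 / 2) := by ring
  show B.Step (B.pt (1 : Fin 2) r.1 r.2) (B.pt (0 : Fin 2)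
    (-2 * r.1 + -2 * r.2 + -2 * -Real.arcsin (Real.sin r.2 / 2)) (-Real.arcsin (Real.sin r.2 / 2)))
  rw [e]
  exact this

end Q176.AB
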