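import Pool.Agent.Q176.AB.A2

/-! The invariant measure. -/

set_option autoImplicit false

open MeasureTheory Set Filter Topology Complex
open scoped ENNReal

namespace Q176.AB

/-- the angles `α` (outer circle) and `β` (inner circle) of an orbit, and the rotation number -/
structure Ang (ρ α β M : ℝ) : Prop where
  hα : α ∈ Ioo 0 (Real.pi / 2)
  hβ : β ∈ Ioo 0 (Real.pi / 2)
  hsin : Real.sin β = 2 * Real.sin α
  hrot : β - α = 2 * Real.pi * ρ
  hcos : Real.cos β ≤ Real.exp (-M)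
  irr : Irrational ρ

theorem exists_ang {x : ℝ} (h0 : 1 / 12 ≤ x) (h1 : x < 1 / 6) (M : ℝ) :
    ∃ ρ, x < ρ ∧ ρ < 1 / 6 ∧ ∃ α β, Ang ρ α β M := by
  have hpi := Real.pi_pos
  have hpi3 := Real.pi_gt_three
  -- the function which controls the cosine
  have hc : ContinuousAt (fun ρ : ℝ => (2 * Real.cos (2 * Real.pi * ρ) - 1)
      / (2 * Real.sin (2 * Real.pi * ρ))) (1 / 6) := by
    refine ContinuousAt.div (by fun_prop) (by fun_prop) ?_
    rw [show 2 * Real.pi * (1 / 6) = Real.pi / 3 by ring, Real.sin_pi_div_three]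
    positivity
  have hv : (2 * Real.cos (2 * Real.pi * (1 / 6)) - 1)
      / (2 * Real.sin (2 * Real.pi * (1 / 6))) < Real.exp (-M) := by
    rw [show 2 * Real.pi * (1 / 6) = Real.pi / 3 by ring, Real.cos_pi_div_three]
    norm_num
    exact Real.exp_pos _
  have hev := hc.eventually_lt continuousAt_const hv
  obtain ⟨δ, hδ, hball⟩ := Metric.eventually_nhds_iff.1 hev
  obtain ⟨ρ, hirr, hρ1, hρ2⟩ := exists_irrational_btwn (max_lt h1 (by linarith : 1 / 6 - δ < 1 / 6))
  have hρx : x < ρ := (le_max_left _ _).trans_lt hρ1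
  have hρδ : 1 / 6 - δ < ρ := (le_max_right _ _).trans_lt hρ1
  have hf := hball (y := ρ) (by rw [Real.dist_eq, abs_lt]; constructor <;> linarith)
  refine ⟨ρ, hρx, hρ2, ?_⟩
  set d := 2 * Real.pi * ρ with hd
  have hρ0 : 0 < ρ := by linarith
  have hd0 : 0 < d := by rw [hd]; positivity
  have hd1 : d < Real.pi / 3 := by rw [hd]; nlinarith
  have hs : 0 < Real.sin d := Real.sin_pos_of_pos_of_lt_pi hd0 (by linarith)
  have hcd : 1 / 2 < Real.cos d := by
    rw [← Real.cos_pi_div_three]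
    exact Real.cos_lt_cos_of_nonneg_of_le_pi hd0.le (by linarith) hd1
  set β := Real.arctan (2 * Real.sin d / (2 * Real.cos d - 1)) with hβ
  have harg : 0 < 2 * Real.sin d / (2 * Real.cos d - 1) := div_pos (by linarith) (by linarith)
  have hβ0 : 0 < β := Real.arctan_pos.2 harg
  have hβ1 : β < Real.pi / 2 := Real.arctan_lt_pi_div_two _
  have hcβ : 0 < Real.cos β := Real.cos_pos_of_mem_Ioo ⟨by linarith, hβ1⟩
  have htan : Real.sin β * (2 * Real.cos d - 1) = 2 * Real.sin d * Real.cos β := by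
    have h2 : Real.tan β = 2 * Real.sin d / (2 * Real.cos d - 1) := Real.tan_arctan _
    rw [Real.tan_eq_sin_div_cos, div_eq_div_iff hcβ.ne' (by linarith)] at h2
    linarith
  have hsβ : 0 < Real.sin β := Real.sin_pos_of_pos_of_lt_pi hβ0 (by linarith)
  have hsα : Real.sin β = 2 * Real.sin (β - d) := by
    rw [Real.sin_sub]; linarith
  refine ⟨β - d, β, ⟨?_, by linarith⟩, ⟨hβ0, hβ1⟩, hsα, by ring, ?_, hirr⟩
  · by_contra hcon
    have h3 : Real.sin (β - d) ≤ 0 :=
      Real.sin_nonpos_of_nonpos_of_neg_pi_le (not_lt.1 hcon) (by linarith)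
    linarith
  · refine le_trans ?_ hf.le
    rw [le_div_iff₀ (by linarith)]
    have h4 := Real.sin_le_one β
    nlinarith

theorem exists_seq (M : ℕ → ℝ) : ∃ ρ α β : ℕ → ℝ, StrictMono ρ ∧
    ∀ k, Ang (ρ k) (α k) (β k) (M k) := by
  have step : ∀ (k : ℕ) (x : {x : ℝ // 1 / 12 ≤ x ∧ x < 1 / 6}),
      ∃ y : {x : ℝ // 1 / 12 ≤ x ∧ x < 1 / 6}, x.1 < y.1 ∧ ∃ α β, Ang y.1 α β (M k) := by
    rintro k ⟨x, h0, h1⟩
    obtain ⟨ρ, h2, h3, h4⟩ := exists_ang h0 h1 (M k)
    exact ⟨⟨ρ, by linarith, h3⟩, h2, h4⟩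
  choose F hF1 hF2 using step
  let r : ℕ → {x : ℝ // 1 / 12 ≤ x ∧ x < 1 / 6} := fun k =>
    Nat.rec (F 0 ⟨1 / 12, le_rfl, by norm_num⟩) (fun k x => F (k + 1) x) k
  have hr : ∀ k, ∃ α β, Ang (r k).1 α β (M k) := by
    intro k
    cases k with
    | zero => exact hF2 _ _
    | succ k => exact hF2 _ _
  choose α β h using hr
  exact ⟨fun k => (r k).1, α, β, strictMono_nat_of_lt_succ fun k => hF1 _ _, h⟩

/-- the parameter space -/
abbrev Om : Type := (ℕ × Bool) × UnitAddCircle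

noncomputable def zz (θ : UnitAddCircle) : ℂ := (AddCircle.toCircle θ : ℂ)

theorem zz_coe (r : ℝ) : zz (r : UnitAddCircle) = ex (2 * Real.pi * r) := by
  rw [zz, AddCircle.toCircle_apply_mk, Circle.coe_exp, ex]
  congr 2
  push_cast; ring

theorem norm_zz (θ : UnitAddCircle) : ‖zz θ‖ = 1 := Circle.norm_coe _

theorem zz_inj : Function.Injective zz := by
  intro s t h
  exact AddCircle.injective_toCircle one_ne_zero (Circle.ext h)

theorem zz_cont : Continuous zz := continuous_subtype_val.comp AddCircle.continuous_toCircle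

/-- the parametrisation of the orbits -/
noncomputable def Psi (α β : ℕ → ℝ) (ω : Om) : ℂ × ℂ :=
  if ω.1.2 = true then (2 * zz ω.2, -(zz ω.2 * ex (-α ω.1.1))) else (zz ω.2, zz ω.2 * ex (β ω.1.1))

theorem Psi_true (α β : ℕ → ℝ) (k : ℕ) (r : ℝ) :
    Psi α β ((k, true), (r : UnitAddCircle)) = B.pt (0 : Fin 2) (4 * Real.pi * r) (α k) := by
  rw [Psi, if_pos rfl, pt0]
  show (2 * zz (r : UnitAddCircle), -(zz (r : UnitAddCircle) * ex (-α k))) = _
  rw [zz_coe, ← ex_add]
  congr 2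
  · congr 1; ring
  · congr 1; ring

theorem Psi_false (α β : ℕ → ℝ) (k : ℕ) (r : ℝ) :
    Psi α β ((k, false), (r : UnitAddCircle)) = B.pt (1 : Fin 2) (-(2 * Real.pi * r)) (-β k) := by
  rw [Psi, if_neg (by simp), pt1]
  show (zz (r : UnitAddCircle), zz (r : UnitAddCircle) * ex (β k)) = _
  rw [zz_coe, ← ex_add]
  congr 2
  · congr 1; ring
  · ring

theorem Psi_meas (α β : ℕ → ℝ) : Measurable (Psi α β) := by
  refine measurable_from_prod_countable_right (fun kb => ?_)
  obtain ⟨k, b⟩ := kb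
  have hz := zz_cont
  cases b
  · show Measurable fun θ => Psi α β ((k, false), θ)
    have h1 : (fun θ => Psi α β ((k, false), θ)) = fun θ => (zz θ, zz θ * ex (β k)) := by
      funext θ; rw [Psi, if_neg (by simp)]
    rw [h1]
    exact (by fun_prop : Continuous fun θ => (zz θ, zz θ * ex (β k))).measurable
  · show Measurable fun θ => Psi α β ((k, true), θ)
    have h1 : (fun θ => Psi α β ((k, true), θ)) = fun θ => (2 * zz θ, -(zz θ * ex (-α k))) := by
      funext θ; rw [Psi, if_pos rfl]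
    rw [h1]
    exact (by fun_prop : Continuous fun θ => (2 * zz θ, -(zz θ * ex (-α k)))).measurable

theorem ang_eq {x y : ℝ} (hx : x ∈ Ioo 0 (Real.pi / 2)) (hy : y ∈ Ioo 0 (Real.pi / 2))
    (h : ex x = ex y) : x = y := by
  obtain ⟨m, hm⟩ := ex_eq_iff.1 h
  have hpi := Real.pi_pos
  have h1 : (m : ℝ) * (2 * Real.pi) < 1 * (2 * Real.pi) := by linarith [hx.2, hy.1]
  have h2 : (-1 : ℝ) * (2 * Real.pi) < m * (2 * Real.pi) := by linarith [hx.1, hy.2]
  have h3 := lt_of_mul_lt_mul_right h1 (by positivity)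
  have h4 := lt_of_mul_lt_mul_right h2 (by positivity)
  have h5 : m < 1 := by exact_mod_cast h3
  have h6 : -1 < m := by exact_mod_cast h4
  have h7 : m = 0 := by omega
  rw [hm, h7, Int.cast_zero, zero_mul, add_zero]

section

variable {ρ α β M : ℕ → ℝ} (hρ : StrictMono ρ) (H : ∀ k, Ang (ρ k) (α k) (β k) (M k))

include hρ H

theorem eq_of_alpha {k l : ℕ} (h : α k = α l) : k = l := by
  have h1 : Real.sin (β k) = Real.sin (β l) := by rw [(H k).hsin, (H l).hsin, h]
  have h2 : β k = β l := Real.strictMonoOn_sin.injOn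
    ⟨by linarith [(H k).hβ.1, Real.pi_pos], (H k).hβ.2.le⟩
    ⟨by linarith [(H l).hβ.1, Real.pi_pos], (H l).hβ.2.le⟩ h1
  have h3 : 2 * Real.pi * ρ k = 2 * Real.pi * ρ l := by rw [← (H k).hrot, ← (H l).hrot, h, h2]
  exact hρ.injective (mul_left_cancel₀ Real.two_pi_pos.ne' h3)

theorem eq_of_beta {k l : ℕ} (h : β k = β l) : k = l := by
  have h1 : Real.sin (α k) = Real.sin (α l) := by
    have h2 := (H k).hsin
    have h3 := (H l).hsin
    rw [h] at h2
    linarith
  exact eq_of_alpha hρ H (Real.strictMonoOn_sin.injOn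
    ⟨by linarith [(H k).hα.1, Real.pi_pos], (H k).hα.2.le⟩
    ⟨by linarith [(H l).hα.1, Real.pi_pos], (H l).hα.2.le⟩ h1)

theorem Psi_inj : Function.Injective (Psi α β) := by
  rintro ⟨⟨k, b⟩, s⟩ ⟨⟨l, c⟩, t⟩ h
  cases b <;> cases c
  · rw [Psi, Psi, if_neg (by simp), if_neg (by simp)] at h
    have h1 : zz s = zz t := congrArg Prod.fst h
    have h2 : zz s * ex (β k) = zz t * ex (β l) := congrArg Prod.snd h
    rw [h1] at h2
    have h3 : ex (β k) = ex (β l) := mul_left_cancel₀ (by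
      intro h0; have := norm_zz t; rw [h0, norm_zero] at this; exact zero_ne_one this) h2
    rw [zz_inj h1, eq_of_beta hρ H (ang_eq (H k).hβ (H l).hβ h3)]
  · exfalso
    rw [Psi, Psi, if_neg (by simp), if_pos rfl] at h
    have h1 : ‖zz s‖ = ‖2 * zz t‖ := congrArg norm (congrArg Prod.fst h)
    rw [norm_mul, norm_zz, norm_zz, Complex.norm_ofNat] at h1
    norm_num at h1
  · exfalso
    rw [Psi, Psi, if_pos rfl, if_neg (by simp)] at h
    have h1 : ‖2 * zz s‖ = ‖zz t‖ := congrArg norm (congrArg Prod.fst h)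
    rw [norm_mul, norm_zz, norm_zz, Complex.norm_ofNat] at h1
    norm_num at h1
  · rw [Psi, Psi, if_pos rfl, if_pos rfl] at h
    have h0 : 2 * zz s = 2 * zz t := congrArg Prod.fst h
    have h1 : zz s = zz t := mul_left_cancel₀ two_ne_zero h0
    have h2 : -(zz s * ex (-α k)) = -(zz t * ex (-α l)) := congrArg Prod.snd h
    rw [h1] at h2
    have h3 : ex (-α k) = ex (-α l) := mul_left_cancel₀ (by
      intro h0; have := norm_zz t; rw [h0, norm_zero] at this; exact zero_ne_one this)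
      (neg_injective h2)
    have h4 : ex (α k) = ex (α l) := by
      have e1 : ex (α k) * ex (-α k) = 1 := by rw [← ex_add, add_neg_cancel, ex_zero]
      have e2 : ex (α l) * ex (-α l) = 1 := by rw [← ex_add, add_neg_cancel, ex_zero]
      rw [h3] at e1
      exact mul_right_cancel₀ (ex_ne _) (e1.trans e2.symm)
    rw [zz_inj h1, eq_of_alpha hρ H (ang_eq (H k).hα (H l).hα h4)]

theorem Psi_emb : MeasurableEmbedding (Psi α β) := (Psi_meas α β).measurableEmbedding (Psi_inj hρ H)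

end

/-- the map on the parameter space -/
noncomputable def SS (ρ : ℕ → ℝ) (ω : Om) : Om :=
  ((ω.1.1, !ω.1.2), ω.2 + (ρ ω.1.1 : UnitAddCircle))

theorem step_Psi {ρ α β M : ℕ → ℝ} (H : ∀ k, Ang (ρ k) (α k) (β k) (M k)) (ω : Om) :
    B.Step (Psi α β ω) (Psi α β (SS ρ ω)) := by
  obtain ⟨⟨k, b⟩, θ⟩ := ω
  obtain ⟨r, rfl⟩ := QuotientAddGroup.mk_surjective θ
  have hpi := Real.pi_pos
  have hα : α k ∈ Angle := ⟨by linarith [(H k).hα.1], (H k).hα.2⟩
  have hβ : -β k ∈ Angle := neg_angle ⟨by linarith [(H k).hβ.1], (H k).hβ.2⟩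
  have hrot := (H k).hrot
  cases b
  · have h1 : SS ρ ((k, false), (r : UnitAddCircle)) = ((k, true), ((r + ρ k : ℝ) : UnitAddCircle)) := by
      rw [SS]; push_cast; rfl
    show B.Step (Psi α β ((k, false), (r : UnitAddCircle)))
      (Psi α β (SS ρ ((k, false), (r : UnitAddCircle))))
    rw [h1, Psi_true, Psi_false]
    have h2 := step10 (s := -(2 * Real.pi * r)) hβ hα (by
      rw [Real.sin_neg, (H k).hsin]; ring)
    have e : 4 * Real.pi * (r + ρ k) = -2 * (-(2 * Real.pi * r)) - 2 * -β k - 2 * α k := by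
      linarith
    rw [e]
    exact h2
  · have h1 : SS ρ ((k, true), (r : UnitAddCircle)) = ((k, false), ((r + ρ k : ℝ) : UnitAddCircle)) := by
      rw [SS]; push_cast; rfl
    show B.Step (Psi α β ((k, true), (r : UnitAddCircle)))
      (Psi α β (SS ρ ((k, true), (r : UnitAddCircle))))
    rw [h1, Psi_true, Psi_false]
    have h2 := step01 (s := 4 * Real.pi * r) hα hβ (by
      rw [Real.sin_neg, (H k).hsin])
    have e : -(2 * Real.pi * (r + ρ k)) = -(4 * Real.pi * r) / 2 + α k + -β k := by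
      linarith
    rw [e]
    exact h2

/-- the orbit in both directions -/
theorem regular_Psi {ρ α β M : ℕ → ℝ} (H : ∀ k, Ang (ρ k) (α k) (β k) (M k)) (ω : Om) :
    B.Regular (Psi α β ω) := by
  obtain ⟨⟨k, b⟩, θ⟩ := ω
  refine ⟨fun n => Psi α β ((k, if Even n then b else !b), θ + n • (ρ k : UnitAddCircle)), ?_, ?_⟩
  · simp
  · intro n
    have h1 := step_Psi H ((k, if Even n then b else !b), θ + n • (ρ k : UnitAddCircle))
    have h2 : SS ρ ((k, if Even n then b else !b), θ + n • (ρ k : UnitAddCircle))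
        = ((k, if Even (n + 1) then b else !b), θ + (n + 1) • (ρ k : UnitAddCircle)) := by
      rw [SS]
      refine Prod.ext (Prod.ext rfl ?_) ?_
      · show (!(if Even n then b else !b)) = if Even (n + 1) then b else !b
        by_cases h : Even n
        · rw [if_pos h, if_neg (by rw [Int.even_add_one]; exact not_not.2 h)]
        · rw [if_neg h, if_pos (by rw [Int.even_add_one]; exact h), Bool.not_not]
      · show θ + n • (ρ k : UnitAddCircle) + (ρ k : UnitAddCircle) = _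
        rw [add_smul, one_smul, add_assoc]
    rw [h2] at h1
    exact h1

theorem iter_SS (ρ : ℕ → ℝ) (n : ℕ) (ω : Om) :
    ((SS ρ)^[n] ω).1.1 = ω.1.1 ∧ ((SS ρ)^[n] ω).2 = ω.2 + n • (ρ ω.1.1 : UnitAddCircle) := by
  induction n with
  | zero => simp
  | succ n ih =>
    rw [Function.iterate_succ_apply']
    refine ⟨ih.1, ?_⟩
    show ((SS ρ)^[n] ω).2 + (ρ ((SS ρ)^[n] ω).1.1 : UnitAddCircle) = _
    rw [ih.1, ih.2, add_smul, one_smul, add_assoc]

theorem iter_ne {ρ : ℕ → ℝ} (hi : ∀ k, Irrational (ρ k)) {n : ℕ} (hn : 0 < n) (ω : Om) :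
    (SS ρ)^[n] ω ≠ ω := by
  intro h
  have h1 := (iter_SS ρ n ω).2
  rw [h] at h1
  have h2 : n • (ρ ω.1.1 : UnitAddCircle) = 0 := by
    have : ω.2 + n • (ρ ω.1.1 : UnitAddCircle) = ω.2 + 0 := by rw [add_zero]; exact h1.symm
    exact add_left_cancel this
  have h3 : ((n • ρ ω.1.1 : ℝ) : UnitAddCircle) = 0 := by rw [← h2]; rfl
  rw [AddCircle.coe_eq_zero_iff] at h3
  obtain ⟨m, hm⟩ := h3
  rw [zsmul_eq_mul, mul_one, nsmul_eq_mul] at hm
  have h4 : Irrational ((n : ℝ) * ρ ω.1.1) := by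
    have := (hi ω.1.1).natCast_mul hn.ne'
    exact this
  rw [← hm] at h4
  exact h4 ⟨m, by push_cast; rfl⟩

end Q176.AB
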