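import Pool.Agent.Q176.AB.A3

/-! The invariant measure, end of the proof. -/

set_option autoImplicit false

open MeasureTheory Set Filter Topology Complex
open scoped ENNReal

namespace Q176.AB

/-- the weights -/
noncomputable def wt : Measure ℕ :=
  Measure.sum fun k => ((2 : ℝ≥0∞)⁻¹ ^ (k + 1)) • Measure.dirac k

instance : IsProbabilityMeasure wt := by
  constructor
  rw [wt, Measure.sum_apply _ MeasurableSet.univ]
  simp only [Measure.smul_apply, measure_univ, smul_eq_mul, mul_one]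
  rw [ENNReal.tsum_geometric_add_one, ENNReal.one_sub_inv_two, inv_inv]
  exact ENNReal.inv_mul_cancel two_ne_zero ENNReal.ofNat_ne_top

theorem wt_ge (k : ℕ) : (2 : ℝ≥0∞)⁻¹ ^ (k + 1) ≤ wt {k} := by
  have h1 := Measure.le_sum (fun k : ℕ => ((2 : ℝ≥0∞)⁻¹ ^ (k + 1)) • Measure.dirac k) k {k}
  refine le_trans (le_of_eq ?_) h1
  simp

/-- the uniform measure on `Bool` -/
noncomputable def hb : Measure Bool := (2 : ℝ≥0∞)⁻¹ • (Measure.dirac true + Measure.dirac false)

instance : IsProbabilityMeasure hb := by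
  constructor
  rw [hb, Measure.smul_apply, Measure.add_apply, measure_univ, measure_univ, smul_eq_mul,
    one_add_one_eq_two]
  exact ENNReal.inv_mul_cancel two_ne_zero ENNReal.ofNat_ne_top

theorem hb_true : hb {true} = (2 : ℝ≥0∞)⁻¹ := by
  rw [hb]
  simp

theorem hb_not : MeasurePreserving (fun b : Bool => !b) hb hb := by
  refine ⟨measurable_of_finite _, ?_⟩
  rw [hb, Measure.map_smul, Measure.map_add _ _ (measurable_of_finite _),
    Measure.map_dirac, Measure.map_dirac, add_comm]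
  rfl

instance : IsProbabilityMeasure (volume : Measure UnitAddCircle) := ⟨UnitAddCircle.measure_univ⟩

/-- the measure on the parameter space -/
noncomputable def mm : Measure Om := (wt.prod hb).prod volume

instance : IsProbabilityMeasure mm := by rw [mm]; infer_instance

theorem SS_mp (ρ : ℕ → ℝ) : MeasurePreserving (SS ρ) mm mm := by
  have h1 : MeasurePreserving (fun kb : ℕ × Bool => (kb.1, !kb.2)) (wt.prod hb) (wt.prod hb) :=
    (MeasurePreserving.id wt).prod hb_not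
  refine h1.skew_product (g := fun kb θ => θ + (ρ kb.1 : UnitAddCircle)) ?_ ?_
  · refine measurable_snd.add ?_
    exact (measurable_from_top (f := fun k : ℕ => (ρ k : UnitAddCircle))).comp
      (measurable_fst.comp measurable_fst)
  · exact Eventually.of_forall fun kb => (measurePreserving_add_right volume _).map_eq

theorem mm_ge (k : ℕ) : (2 : ℝ≥0∞)⁻¹ ^ (k + 2) ≤ mm (({k} ×ˢ {true}) ×ˢ univ) := by
  rw [mm, Measure.prod_prod, Measure.prod_prod, hb_true, measure_univ, mul_one, pow_succ]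
  exact mul_le_mul_left (wt_ge k) _

theorem main : ∃ (T : ℂ × ℂ → ℂ × ℂ) (μ : Measure (ℂ × ℂ)), B.Invariant T μ ∧ NonPeriodic T μ ∧
    (∀ᵐ x ∂μ, ∃ A, B.HasD x A) ∧
    ¬ ∃ g : ℂ × ℂ → ℝ, Integrable g μ ∧ ∀ᵐ x ∂μ, ∀ A, B.HasD x A → Real.posLog ‖A‖ ≤ g x := by
  obtain ⟨ρ, α, β, hρ, H⟩ := exists_seq fun k => (4 : ℝ) ^ k
  have hE := Psi_emb hρ H
  set T : ℂ × ℂ → ℂ × ℂ := Function.extend (Psi α β) (Psi α β ∘ SS ρ) id with hT
  have hTm : Measurable T := hE.measurable_extend ((Psi_meas α β).comp (SS_mp ρ).measurable)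
    measurable_id
  have hTP : ∀ ω, T (Psi α β ω) = Psi α β (SS ρ ω) := fun ω => hE.injective.extend_apply _ _ ω
  have hTn : ∀ (n : ℕ) (ω : Om), T^[n] (Psi α β ω) = Psi α β ((SS ρ)^[n] ω) := by
    intro n ω
    induction n with
    | zero => rfl
    | succ n ih => rw [Function.iterate_succ_apply', ih, hTP, Function.iterate_succ_apply']
  refine ⟨T, mm.map (Psi α β), ⟨Measure.isProbabilityMeasure_map (Psi_meas α β).aemeasurable,
    ⟨hTm, ?_⟩, ?_, ?_⟩, ?_, ?_, ?_⟩
  · rw [Measure.map_map hTm (Psi_meas α β)]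
    have h1 : T ∘ Psi α β = Psi α β ∘ SS ρ := funext hTP
    rw [h1, ← Measure.map_map (Psi_meas α β) (SS_mp ρ).measurable, (SS_mp ρ).map_eq]
  · rw [hE.ae_map_iff]
    refine Eventually.of_forall fun ω => ?_
    rw [hTP]
    exact step_Psi H ω
  · rw [hE.ae_map_iff]
    exact Eventually.of_forall fun ω => regular_Psi H ω
  · rw [NonPeriodic, hE.ae_map_iff]
    refine Eventually.of_forall fun ω n hn h => ?_
    rw [hTn] at h
    exact iter_ne (fun k => (H k).irr) hn ω (hE.injective h)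
  · rw [hE.ae_map_iff]
    refine Eventually.of_forall fun ω => ?_
    obtain ⟨⟨k, b⟩, θ⟩ := ω
    obtain ⟨r, rfl⟩ := QuotientAddGroup.mk_surjective θ
    have hpi := Real.pi_pos
    cases b
    · show ∃ A, B.HasD (Psi α β ((k, false), (r : UnitAddCircle))) A
      rw [Psi_false]
      exact hasD1 (neg_angle ⟨by linarith [(H k).hβ.1], (H k).hβ.2⟩)
    · show ∃ A, B.HasD (Psi α β ((k, true), (r : UnitAddCircle))) A
      rw [Psi_true]
      have h2 : |2 * Real.sin (α k)| < 1 := by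
        rw [← (H k).hsin, abs_lt]
        have h3 : 0 < Real.sin (β k) :=
          Real.sin_pos_of_pos_of_lt_pi (H k).hβ.1 (by linarith [(H k).hβ.2])
        have h4 : Real.sin (β k) < 1 := by
          rw [← Real.sin_pi_div_two]
          exact Real.sin_lt_sin_of_lt_of_le_pi_div_two (by linarith [(H k).hβ.1]) le_rfl (H k).hβ.2
        constructor <;> linarith
      obtain ⟨A, hA, _⟩ := hasD0 (s := 4 * Real.pi * r) (φ := α k)
        ⟨by linarith [(H k).hα.1], (H k).hα.2⟩ h2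
      exact ⟨A, hA⟩
  · rintro ⟨g, hg, hge⟩
    rw [hE.integrable_map_iff] at hg
    rw [hE.ae_map_iff] at hge
    -- the lower bound
    have hlow : ∀ k : ℕ, ∀ᵐ ω ∂mm, ω ∈ (({k} ×ˢ {true}) ×ˢ univ : Set Om) →
        ENNReal.ofReal ((4 : ℝ) ^ k) ≤ ‖(g ∘ Psi α β) ω‖ₑ := by
      intro k
      filter_upwards [hge] with ω hω hmem
      obtain ⟨⟨l, b⟩, θ⟩ := ω
      obtain ⟨⟨h1, h2⟩, _⟩ := hmem
      have h1 : l = k := h1
      have h2 : b = true := h2
      subst h1 h2
      obtain ⟨r, rfl⟩ := QuotientAddGroup.mk_surjective θ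
      have hpi := Real.pi_pos
      have hs : 0 < Real.sin (β l) :=
        Real.sin_pos_of_pos_of_lt_pi (H l).hβ.1 (by linarith [(H l).hβ.2])
      have hs1 : Real.sin (β l) < 1 := by
        rw [← Real.sin_pi_div_two]
        exact Real.sin_lt_sin_of_lt_of_le_pi_div_two (by linarith [(H l).hβ.1]) le_rfl (H l).hβ.2
      have h3 : |2 * Real.sin (α l)| < 1 := by
        rw [← (H l).hsin, abs_lt]
        constructor <;> linarith
      obtain ⟨A, hA, hAn⟩ := hasD0 (s := 4 * Real.pi * r) (φ := α l)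
        ⟨by linarith [(H l).hα.1], (H l).hα.2⟩ h3
      have h4 : B.HasD (Psi α β ((l, true), (r : UnitAddCircle))) A := by rw [Psi_true]; exact hA
      have h5 : Real.posLog ‖A‖ ≤ (g ∘ Psi α β) ((l, true), (r : UnitAddCircle)) := hω A h4
      -- the size of the derivative
      have hcβ : 0 < Real.cos (β l) :=
        Real.cos_pos_of_mem_Ioo ⟨by linarith [(H l).hβ.1], (H l).hβ.2⟩
      have h6 : √(1 - (2 * Real.sin (α l)) ^ 2) = Real.cos (β l) := by
        rw [← (H l).hsin]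
        have : 1 - Real.sin (β l) ^ 2 = Real.cos (β l) ^ 2 := by
          have := Real.sin_sq_add_cos_sq (β l)
          linarith
        rw [this, Real.sqrt_sq hcβ.le]
      have h7 : 1 ≤ 2 * Real.cos (α l) := by
        have h8 := Real.sin_sq_add_cos_sq (α l)
        have h9 := (H l).hsin
        have h10 : 0 < Real.cos (α l) :=
          Real.cos_pos_of_mem_Ioo ⟨by linarith [(H l).hα.1], (H l).hα.2⟩
        nlinarith
      have h11 : Real.exp ((4 : ℝ) ^ l) ≤ ‖A‖ := by
        refine le_trans ?_ hAn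
        rw [h6, le_div_iff₀ hcβ]
        have h12 := (H l).hcos
        calc Real.exp ((4 : ℝ) ^ l) * Real.cos (β l)
            ≤ Real.exp ((4 : ℝ) ^ l) * Real.exp (-(4 : ℝ) ^ l) :=
              mul_le_mul_of_nonneg_left h12 (Real.exp_pos _).le
          _ = 1 := by rw [← Real.exp_add, add_neg_cancel, Real.exp_zero]
          _ ≤ 2 * Real.cos (α l) := h7
      have h13 : (4 : ℝ) ^ l ≤ Real.posLog ‖A‖ := by
        have h14 : Real.log (Real.exp ((4 : ℝ) ^ l)) ≤ Real.log ‖A‖ :=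
          Real.log_le_log (Real.exp_pos _) h11
        rw [Real.log_exp] at h14
        exact h14.trans (le_max_right _ _)
      have h15 : ENNReal.ofReal ((4 : ℝ) ^ l)
          ≤ ENNReal.ofReal ((g ∘ Psi α β) ((l, true), (r : UnitAddCircle))) :=
        ENNReal.ofReal_le_ofReal (h13.trans h5)
      refine h15.trans ?_
      rw [Real.enorm_eq_ofReal_abs]
      exact ENNReal.ofReal_le_ofReal (le_abs_self _)
    -- the contradiction
    have hC : ∫⁻ ω, ‖(g ∘ Psi α β) ω‖ₑ ∂mm < ∞ := hg.hasFiniteIntegral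
    have hk : ∀ k : ℕ, (2 : ℝ≥0∞) ^ k / 4 ≤ ∫⁻ ω, ‖(g ∘ Psi α β) ω‖ₑ ∂mm := by
      intro k
      have hms : MeasurableSet (({k} ×ˢ {true}) ×ˢ univ : Set Om) :=
        ((measurableSet_singleton _).prod (measurableSet_singleton _)).prod MeasurableSet.univ
      calc (2 : ℝ≥0∞) ^ k / 4 = ENNReal.ofReal ((4 : ℝ) ^ k) * (2 : ℝ≥0∞)⁻¹ ^ (k + 2) := by
            have e1 : ENNReal.ofReal ((4 : ℝ) ^ k) = (2 : ℝ≥0∞) ^ k * (2 : ℝ≥0∞) ^ k := by
              rw [← mul_pow, ENNReal.ofReal_pow (by norm_num)]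
              norm_num
            have e2 : (2 : ℝ≥0∞)⁻¹ ^ (k + 2) = ((2 : ℝ≥0∞) ^ k)⁻¹ * 4⁻¹ := by
              rw [pow_add, ← ENNReal.inv_pow, ← ENNReal.inv_pow]
              norm_num
            rw [e1, e2, mul_assoc, ← mul_assoc ((2 : ℝ≥0∞) ^ k) (((2 : ℝ≥0∞) ^ k)⁻¹),
              ENNReal.mul_inv_cancel (by positivity) (ENNReal.pow_ne_top ENNReal.ofNat_ne_top),
              one_mul, ENNReal.div_eq_inv_mul, mul_comm]
        _ ≤ ENNReal.ofReal ((4 : ℝ) ^ k) * mm (({k} ×ˢ {true}) ×ˢ univ) :=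
            mul_le_mul_right (mm_ge k) _
        _ = ∫⁻ _ω in (({k} ×ˢ {true}) ×ˢ univ : Set Om), ENNReal.ofReal ((4 : ℝ) ^ k) ∂mm := by
            rw [setLIntegral_const]
        _ ≤ ∫⁻ ω in (({k} ×ˢ {true}) ×ˢ univ : Set Om), ‖(g ∘ Psi α β) ω‖ₑ ∂mm :=
            lintegral_mono_ae ((ae_restrict_iff' hms).2 (hlow k))
        _ ≤ _ := setLIntegral_le_lintegral _ _
    have ht : Tendsto (fun k : ℕ => (2 : ℝ≥0∞) ^ k / 4) atTop (𝓝 ∞) := by
      have h1 : Tendsto (fun k : ℕ => (2 : ℝ≥0∞) ^ k) atTop (𝓝 ∞) :=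
        ENNReal.tendsto_pow_atTop_nhds_top_iff.2 (by norm_num)
      have h2 := ENNReal.Tendsto.div_const (b := (4 : ℝ≥0∞)) h1 (Or.inl (by simp))
      rwa [ENNReal.top_div_of_ne_top ENNReal.ofNat_ne_top] at h2
    have h16 := le_of_tendsto' ht hk
    exact absurd hC (not_lt.2 h16)

end Q176.AB
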