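import Mathlib

/-!
Billiard tables with smooth boundary in the plane `ℂ`, the billiard map and its derivative in the
coordinates given by the arclength and the angle.
-/

set_option autoImplicit false

open MeasureTheory Set Filter Topology Complex

namespace Q176.AB

/-- A billiard table without corners: `Q` is the closure of its interior, which is connected; the
boundary is the union of the simple closed curves `c i`, which are smooth, pairwise disjoint,
parametrised by the arclength and have the length `L i`; the inward normal is `i c'`. -/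
structure Table where
  Q : Set ℂ
  n : ℕ
  L : Fin n → ℝ
  c : Fin n → ℝ → ℂ
  compact : IsCompact Q
  closure_interior : closure (interior Q) = Q
  connected : IsConnected (interior Q)
  frontier_eq : frontier Q = ⋃ i, range (c i)
  L_pos : ∀ i, 0 < L i
  smooth : ∀ i, ContDiff ℝ (⊤ : ℕ∞) (c i)
  unit_speed : ∀ i s, ‖deriv (c i) s‖ = 1
  period : ∀ i s, c i (s + L i) = c i s
  simple : ∀ i j s t, c i s = c j t → i = j ∧ ∃ m : ℤ, s = t + m * L i
  inward : ∀ i s, ∀ᶠ t : ℝ in 𝓝[>] 0, c i s + t * (I * deriv (c i) s) ∈ interior Q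

/-- The angles of the collisions which are not tangential. -/
def Angle : Set ℝ := Ioo (-(Real.pi / 2)) (Real.pi / 2)

namespace Table

variable (B : Table)

/-- The element `(q, v)` of the phase space with the coordinates `(s, φ)` on the boundary curve
`i`: the position is `q = c i s`, and the unit vector `v` makes the angle `φ` with the inward
normal. -/
noncomputable def pt (i : Fin B.n) (s φ : ℝ) : ℂ × ℂ :=
  (B.c i s, (Real.sin φ + Real.cos φ * I) * deriv (B.c i) s)

/-- The billiard map sends `x` to `y`, both are not tangential: the particle moves from the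
position of `x` in the direction of `x` in the interior of `Q` until it reaches the position of
`y`, and it is reflected there (the component of the velocity along the boundary is kept and the
normal component changes its sign). -/
def Step (x y : ℂ × ℂ) : Prop :=
  ∃ (i : Fin B.n) (s φ : ℝ) (j : Fin B.n) (s' φ' : ℝ), φ ∈ Angle ∧ φ' ∈ Angle ∧
    x = B.pt i s φ ∧ y = B.pt j s' φ' ∧
    ∃ τ : ℝ, 0 < τ ∧ y.1 = x.1 + τ * x.2 ∧ (∀ t ∈ Ioo 0 τ, x.1 + t * x.2 ∈ interior B.Q) ∧
      x.2 = (Real.sin φ' - Real.cos φ' * I) * deriv (B.c j) s'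

/-- The whole orbit of `x` avoids the tangential collisions. -/
def Regular (x : ℂ × ℂ) : Prop :=
  ∃ o : ℤ → ℂ × ℂ, o 0 = x ∧ ∀ n, B.Step (o n) (o (n + 1))

/-- `A` is the derivative of the billiard map at `x` in the coordinates `(s, φ)`. -/
def HasD (x : ℂ × ℂ) (A : ℝ × ℝ →L[ℝ] ℝ × ℝ) : Prop :=
  ∃ (i j : Fin B.n) (r : ℝ × ℝ) (F : ℝ × ℝ → ℝ × ℝ), r.2 ∈ Angle ∧ (F r).2 ∈ Angle ∧
    x = B.pt i r.1 r.2 ∧ (∀ᶠ r' in 𝓝 r, B.Step (B.pt i r'.1 r'.2) (B.pt j (F r').1 (F r').2)) ∧
    HasFDerivAt F A r

/-- The probability measure `μ` on the phase space is invariant for the billiard map: it is carried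
by the points whose orbits are regular, and preserved by a map `T` which is the billiard map
almost everywhere. -/
def Invariant (T : ℂ × ℂ → ℂ × ℂ) (μ : Measure (ℂ × ℂ)) : Prop :=
  IsProbabilityMeasure μ ∧ MeasurePreserving T μ μ ∧
    (∀ᵐ x ∂μ, B.Step x (T x)) ∧ ∀ᵐ x ∂μ, B.Regular x

end Table

/-- `μ` gives zero mass to the set of the periodic points of `T`. -/
def NonPeriodic (T : ℂ × ℂ → ℂ × ℂ) (μ : Measure (ℂ × ℂ)) : Prop :=
  ∀ᵐ x ∂μ, ∀ n : ℕ, 0 < n → T^[n] x ≠ x

end Q176.AB
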