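import Pool.Agent.Q176.AB.Def

/-! The billiard map is a function, and its derivative is unique. -/

set_option autoImplicit false

open MeasureTheory Set Filter Topology Complex

namespace Q176.AB

namespace Table

variable {B : Table}

theorem per_int (j : Fin B.n) (s : ℝ) (m : ℤ) : B.c j (s + m * B.L j) = B.c j s := by
  have h : Function.Periodic (B.c j) (B.L j) := B.period j
  exact h.int_mul m s

theorem deriv_per_int (j : Fin B.n) (s : ℝ) (m : ℤ) :
    deriv (B.c j) (s + m * B.L j) = deriv (B.c j) s := by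
  have h : (fun z => B.c j (z + m * B.L j)) = B.c j := funext fun z => per_int j z m
  have h2 := deriv_comp_add_const (B.c j) (m * B.L j) s
  rw [h] at h2
  exact h2.symm

theorem pt_per (j : Fin B.n) (s φ : ℝ) (m : ℤ) : B.pt j (s + m * B.L j) φ = B.pt j s φ := by
  rw [pt, pt, per_int, deriv_per_int]

theorem ne_deriv (j : Fin B.n) (s : ℝ) : deriv (B.c j) s ≠ 0 := by
  intro h
  have := B.unit_speed j s
  rw [h, norm_zero] at this
  exact zero_ne_one this

theorem re_im {a b a' b' : ℝ} (h : (a : ℂ) + b * I = a' + b' * I) : a = a' ∧ b = b' := by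
  have h1 := congrArg Complex.re h
  have h2 := congrArg Complex.im h
  simp at h1 h2
  exact ⟨h1, h2⟩

/-- equal phase points -/
theorem pt_eq {i j : Fin B.n} {s φ t ψ : ℝ} (h : B.pt i s φ = B.pt j t ψ) :
    i = j ∧ (∃ m : ℤ, s = t + m * B.L j) ∧ Real.sin φ = Real.sin ψ ∧ Real.cos φ = Real.cos ψ := by
  have h1 : B.c i s = B.c j t := congrArg Prod.fst h
  have h2 : (Real.sin φ + Real.cos φ * I) * deriv (B.c i) s
      = (Real.sin ψ + Real.cos ψ * I) * deriv (B.c j) t := congrArg Prod.snd h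
  obtain ⟨rfl, m, hm⟩ := B.simple i j s t h1
  rw [hm, deriv_per_int] at h2
  have h3 := re_im (mul_right_cancel₀ (ne_deriv i t) h2)
  exact ⟨rfl, ⟨m, hm⟩, h3.1, h3.2⟩

theorem mem_frontier (j : Fin B.n) (s : ℝ) : B.c j s ∈ frontier B.Q := by
  rw [B.frontier_eq]
  exact mem_iUnion.2 ⟨j, s, rfl⟩

theorem not_interior (j : Fin B.n) (s : ℝ) : B.c j s ∉ interior B.Q := fun h =>
  (mem_frontier j s).2 h

/-- the billiard map is a function -/
theorem step_unique {x y z : ℂ × ℂ} (hy : B.Step x y) (hz : B.Step x z) : y = z := by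
  obtain ⟨i, s, φ, j, s', φ', hφ, hφ', rfl, rfl, τ, hτ, h1, h2, h3⟩ := hy
  obtain ⟨i₂, s₂, φ₂, k, t', ψ', hφ₂, hψ', hx, rfl, σ, hσ, h1', h2', h3'⟩ := hz
  have hτσ : τ = σ := by
    rcases lt_trichotomy τ σ with h | h | h
    · exfalso
      have := h2' τ ⟨hτ, h⟩
      rw [← h1] at this
      exact not_interior j s' this
    · exact h
    · exfalso
      have := h2 σ ⟨hσ, h⟩
      rw [← h1'] at this
      exact not_interior k t' this
  rw [← hτσ, ← h1] at h1'
  have h4 : B.c k t' = B.c j s' := h1'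
  obtain ⟨rfl, m, hm⟩ := B.simple k j t' s' h4
  rw [hm, deriv_per_int] at h3'
  rw [h3] at h3'
  have h5 : ((Real.sin φ' : ℝ) : ℂ) + ((-Real.cos φ' : ℝ) : ℂ) * I
      = ((Real.sin ψ' : ℝ) : ℂ) + ((-Real.cos ψ' : ℝ) : ℂ) * I := by
    have := mul_right_cancel₀ (ne_deriv k s') h3'
    push_cast at this ⊢
    linear_combination this
  have h6 := re_im h5
  have h7 : Real.cos φ' = Real.cos ψ' := by linarith [h6.2]
  rw [hm, pt_per, pt, pt, h6.1, h7]

theorem angle_inj {φ ψ : ℝ} (h : φ ∈ Angle) (h' : ψ ∈ Angle) (hs : Real.sin φ = Real.sin ψ) :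
    φ = ψ :=
  Real.strictMonoOn_sin.injOn (Ioo_subset_Icc_self h) (Ioo_subset_Icc_self h') hs

/-- a function which is continuous at a point and has discrete values is constant near it -/
theorem const_near {f : ℝ × ℝ → ℝ} {r : ℝ × ℝ} {c : ℝ} (hc : 0 < c) (hf : ContinuousAt f r)
    (hd : ∀ᶠ r' in 𝓝 r, ∃ m : ℤ, f r' = m * c) : ∀ᶠ r' in 𝓝 r, f r' = f r := by
  have h1 : ∀ᶠ r' in 𝓝 r, |f r' - f r| < c := by
    have h0 : ContinuousAt (fun r' => |f r' - f r|) r := (hf.sub continuousAt_const).abs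
    refine h0.eventually_lt continuousAt_const ?_
    rw [sub_self, abs_zero]
    exact hc
  obtain ⟨m, hm⟩ := hd.self_of_nhds
  filter_upwards [h1, hd] with r' h2 h3
  obtain ⟨n, hn⟩ := h3
  rw [hn, hm] at h2 ⊢
  rw [← sub_mul, abs_mul, abs_of_pos hc] at h2
  have h4 : |((n - m : ℤ) : ℝ)| < 1 := by
    push_cast
    exact (mul_lt_iff_lt_one_left hc).1 h2
  rw [← Int.cast_abs] at h4
  have h5 : |n - m| < 1 := by exact_mod_cast h4
  have h6 : n - m = 0 := Int.abs_lt_one_iff.1 h5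
  have h7 : n = m := by omega
  rw [h7]

/-- the derivative of the billiard map is unique -/
theorem hasD_unique {x : ℂ × ℂ} {A A' : ℝ × ℝ →L[ℝ] ℝ × ℝ} (h : B.HasD x A)
    (h' : B.HasD x A') : A = A' := by
  obtain ⟨i, j, r, F, hr, hF, rfl, hst, hD⟩ := h
  obtain ⟨i', j', r', F', hr', hF', hx, hst', hD'⟩ := h'
  obtain ⟨rfl, ⟨m, hm⟩, hs, _⟩ := pt_eq hx
  have hang := angle_inj hr hr' hs
  -- the shift
  set v : ℝ × ℝ := (m * B.L i, 0) with hv
  have hrv : r = r' + v := Prod.ext hm (by rw [hang]; simp [hv])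
  set F₁ : ℝ × ℝ → ℝ × ℝ := fun y => F (y + v) with hF₁
  have hD₁ : HasFDerivAt F₁ A r' := by
    rw [hrv] at hD
    exact (hasFDerivAt_comp_add_right v).2 hD
  have hst₁ : ∀ᶠ y in 𝓝 r', B.Step (B.pt i y.1 y.2) (B.pt j (F₁ y).1 (F₁ y).2) := by
    have h1 : Tendsto (fun y : ℝ × ℝ => y + v) (𝓝 r') (𝓝 r) := by
      rw [hrv]
      exact (continuous_id.add continuous_const).tendsto r'
    filter_upwards [h1.eventually hst] with y hy
    have h2 : B.pt i (y + v).1 (y + v).2 = B.pt i y.1 y.2 := by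
      show B.pt i (y.1 + m * B.L i) (y.2 + 0) = _
      rw [add_zero, pt_per]
    rw [h2] at hy
    exact hy
  have hev : ∀ᶠ y in 𝓝 r', B.pt j (F₁ y).1 (F₁ y).2 = B.pt j' (F' y).1 (F' y).2 := by
    filter_upwards [hst₁, hst'] with y h1 h2
    exact step_unique h1 h2
  have hj := (pt_eq hev.self_of_nhds).1
  subst hj
  have hc1 : ContinuousAt (fun y => (F₁ y).1 - (F' y).1) r' :=
    (continuous_fst.continuousAt.comp hD₁.continuousAt).sub
      (continuous_fst.continuousAt.comp hD'.continuousAt)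
  have hc2 : ContinuousAt (fun y => (F₁ y).2 - (F' y).2) r' :=
    (continuous_snd.continuousAt.comp hD₁.continuousAt).sub
      (continuous_snd.continuousAt.comp hD'.continuousAt)
  have e1 := const_near (B.L_pos j) hc1 (by
    filter_upwards [hev] with y hy
    obtain ⟨_, ⟨k, hk⟩, _, _⟩ := pt_eq hy
    exact ⟨k, by linarith⟩)
  have e2 := const_near Real.two_pi_pos hc2 (by
    filter_upwards [hev] with y hy
    obtain ⟨_, _, h3, h4⟩ := pt_eq hy
    have h5 : Real.cos ((F₁ y).2 - (F' y).2) = 1 := by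
      rw [Real.cos_sub, h3, h4]
      have := Real.sin_sq_add_cos_sq (F' y).2
      nlinarith
    obtain ⟨k, hk⟩ := (Real.cos_eq_one_iff _).1 h5
    exact ⟨k, hk.symm⟩)
  have hcongr : F₁ =ᶠ[𝓝 r'] fun y => F' y + ((F₁ r').1 - (F' r').1, (F₁ r').2 - (F' r').2) := by
    filter_upwards [e1, e2] with y h1 h2
    refine Prod.ext ?_ ?_
    · show (F₁ y).1 = (F' y).1 + ((F₁ r').1 - (F' r').1)
      linarith
    · show (F₁ y).2 = (F' y).2 + ((F₁ r').2 - (F' r').2)
      linarith
  have hD₂ : HasFDerivAt F₁ A' r' := (hD'.add_const _).congr_of_eventuallyEq hcongr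
  exact hD₁.unique hD₂

end Table

end Q176.AB
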